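import Pool.Agent.MP_a091fe_an.Main

/-!
An entire gap series with summable reciprocal exponents which is small on the whole positive real axis,
in comparison with the maximum modulus; in particular its minimum modulus is small on all large circles.
-/

set_option autoImplicit false

namespace Pool.Agent.Results.MP_a091fe_an.RealAxis

open Pool.Agent.MP_a091fe_an

/-- There are an entire function `f` and a set `Λ` of positive integers with `∑ 1/λ < ∞`, such that all
nonzero Taylor coefficients of `f` at `0` are at exponents in `Λ`, infinitely many of them are not zero, and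
for all large `r` the maximum modulus `M(r)` is larger than `1` and `|f(r)| ≤ M(r)^(71/72)`; so the minimum
modulus `m(r)` satisfies `m(r) ≤ M(r)^(71/72)` and `log m(r) ≤ (71/72) log M(r)` for all large `r`. -/
theorem result : ∃ (f : ℂ → ℂ) (Λ : Set ℕ), Differentiable ℂ f ∧
    (∀ k ∈ Λ, 0 < k) ∧ Summable (fun k : Λ => (1 : ℝ) / ((k : ℕ) : ℝ)) ∧
    (∀ k : ℕ, iteratedDeriv k f 0 ≠ 0 → k ∈ Λ) ∧ {k : ℕ | iteratedDeriv k f 0 ≠ 0}.Infinite ∧
    ∃ r₀ : ℝ, ∀ r : ℝ, r₀ ≤ r →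
      1 < sSup ((fun z => ‖f z‖) '' Metric.sphere (0 : ℂ) r) ∧
      ‖f (r : ℂ)‖ ≤ sSup ((fun z => ‖f z‖) '' Metric.sphere (0 : ℂ) r) ^ (71 / 72 : ℝ) ∧
      sInf ((fun z => ‖f z‖) '' Metric.sphere (0 : ℂ) r) ≤
        sSup ((fun z => ‖f z‖) '' Metric.sphere (0 : ℂ) r) ^ (71 / 72 : ℝ) ∧
      (sInf ((fun z => ‖f z‖) '' Metric.sphere (0 : ℂ) r) ≠ 0 →
        Real.log (sInf ((fun z => ‖f z‖) '' Metric.sphere (0 : ℂ) r)) ≤
          71 / 72 * Real.log (sSup ((fun z => ‖f z‖) '' Metric.sphere (0 : ℂ) r))) := by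
  refine ⟨f, Lam, f_differentiable, ?_, Lam_summable, f_support, f_infinite, R 6, fun r hr => ?_⟩
  · intro k hk
    obtain ⟨j, hj⟩ := Set.mem_iUnion.1 hk
    exact lt_of_lt_of_le (L_pos j) hj.1
  · obtain ⟨i, hi, h1, h2⟩ := exists_index hr
    have hr0 : 0 ≤ r := (R_pos 6).le.trans hr
    set M := sSup ((fun z => ‖f z‖) '' Metric.sphere (0 : ℂ) r) with hMdef
    set m := sInf ((fun z => ‖f z‖) '' Metric.sphere (0 : ℂ) r) with hmdef
    have hcont : Continuous fun z => ‖f z‖ := f_differentiable.continuous.norm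
    have hbdd : BddAbove ((fun z => ‖f z‖) '' Metric.sphere (0 : ℂ) r) :=
      (isCompact_sphere (0 : ℂ) r).bddAbove_image hcont.continuousOn
    have hbdd' : BddBelow ((fun z => ‖f z‖) '' Metric.sphere (0 : ℂ) r) :=
      ⟨0, by rintro _ ⟨z, _, rfl⟩; exact norm_nonneg _⟩
    have hmem : (r : ℂ) ∈ Metric.sphere (0 : ℂ) r := by
      simp [abs_of_nonneg hr0]
    have hmem' : -(r : ℂ) ∈ Metric.sphere (0 : ℂ) r := by
      simp [abs_of_nonneg hr0]
    have hM : ∀ j, U j r ≤ M := fun j =>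
      (U_le_norm hr0 j).trans (le_csSup hbdd ⟨_, hmem', rfl⟩)
    have hm : m ≤ ‖f (r : ℂ)‖ := csInf_le hbdd' ⟨_, hmem, rfl⟩
    have hm0 : 0 ≤ m := Real.sInf_nonneg (by rintro _ ⟨z, _, rfl⟩; exact norm_nonneg _)
    have hM0 : 0 ≤ M := (norm_nonneg _).trans (le_csSup hbdd ⟨_, hmem', rfl⟩)
    obtain ⟨h3, h4⟩ := main_est hi h1 h2 hM
    have h5 : 1 < M := (Real.log_pos_iff hM0).1 h4
    have h6 : ‖f (r : ℂ)‖ ≤ M ^ (71 / 72 : ℝ) := by
      rw [Real.rpow_def_of_pos (by linarith), mul_comm]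
      exact h3
    refine ⟨h5, h6, hm.trans h6, fun h7 => ?_⟩
    have h8 : 0 < m := lt_of_le_of_ne hm0 (Ne.symm h7)
    calc Real.log m ≤ Real.log (Real.exp (71 / 72 * Real.log M)) :=
          Real.log_le_log h8 (hm.trans h3)
      _ = 71 / 72 * Real.log M := Real.log_exp _

end Pool.Agent.Results.MP_a091fe_an.RealAxis
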